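import Mathlib
import Pool.Agent.Lib.helper22.TA
import Pool.Agent.Lib.helper22.Munn

namespace Pool.Agent.H.MP_5c1719_al

open FreeGroup hiding map_mul map_one map_inv
open Pool.Agent.Lib.TA Pool.Agent.Lib.Munn Relation
open scoped Pointwise

theorem top {α : Type} {r : α → α → Prop} {C : Set α} (f : C.Finite) (n : C.Nonempty)
    (h : ∀ a ∈ C, ∀ b ∈ C, ReflTransGen r a b ∨ ReflTransGen r b a) : ∃ a ∈ C, ∀ b ∈ C, ReflTransGen r b a := by
  induction C, f using Set.Finite.induction_on with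
  | empty => simp at n
  | @insert a C _ _ ih =>
    obtain rfl | n := C.eq_empty_or_nonempty
    · exact ⟨a, .inl rfl, by simp [ReflTransGen.refl]⟩
    obtain ⟨b, hb, k⟩ := ih n fun a x b y => h a (.inr x) b (.inr y)
    obtain e | e := h a (.inl rfl) b (.inr hb)
    · exact ⟨b, .inr hb, Set.forall_mem_insert.2 ⟨e, k⟩⟩
    · exact ⟨a, .inl rfl, Set.forall_mem_insert.2 ⟨.refl, fun c x => (k c x).trans e⟩⟩

variable {X : Type}

abbrev Au (X : Type) := List (ℕ × Option (X × Bool) × ℕ) × List ℕ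

def sz (A : Au X) : ℕ := (A.1.map fun t => t.1 + t.2.2).sum + 1

theorem lt_sz {A : Au X} {t} (h : t ∈ A.1) : t.1 < sz A ∧ t.2.2 < sz A := by
  have := List.single_le_sum (l := A.1.map fun t => t.1 + t.2.2) (by simp) _ (List.mem_map_of_mem h)
  unfold sz
  omega

def z0 (A : Au X) : Fin (sz A) := ⟨0, Nat.succ_pos _⟩

inductive Acc (A : Au X) : List (X × Bool) → ℕ → Prop
  | base : Acc A [] 0
  | step {v p a p'} : Acc A v p → (p, a, p') ∈ A.1 → Acc A (v ++ a.toList) p'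

def K (A : Au X) (m : Set (FreeGroup X) × FreeGroup X) : Prop := ∃ v p, Acc A v p ∧ p ∈ A.2 ∧ mu v = m

def St (A : Au X) (S : Set (FreeGroup X)) (z z' : FreeGroup X × Fin (sz A)) : Prop :=
  z.1 ∈ S ∧ z'.1 ∈ S ∧ ∃ a, (z.2.1, a, z'.2.1) ∈ A.1 ∧ z'.1 = z.1 * mk a.toList

theorem T_opt (v : List (X × Bool)) (a : Option (X × Bool)) : T (v ++ a.toList) = insert (mk (v ++ a.toList)) (T v) := by
  cases a
  exacts [by simp [mk_T], T_snoc ..]

theorem K_iff {A : Au X} {S : Set (FreeGroup X)} (fS : S.Finite) {o h} (ho : o ∈ S) : K A (o⁻¹ • S, o⁻¹ * h) ↔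
    ∃ (C : Set (FreeGroup X × Fin (sz A))) (f : Fin (sz A)), f.1 ∈ A.2 ∧ Prod.fst '' C = S ∧
      (∀ c ∈ C, ReflTransGen (St A S) (o, z0 A) c ∧ ReflTransGen (St A S) c (h, f)) ∧
      ∀ c ∈ C, ∀ d ∈ C, ReflTransGen (St A S) c d ∨ ReflTransGen (St A S) d c := by
  refine ⟨fun ⟨v, p, a, b, e⟩ => ?_, fun ⟨C, f, a, b, c, d⟩ => ?_⟩
  · obtain ⟨e1, e2⟩ := Prod.ext_iff.1 e
    suffices o • T v ⊆ S → ∃ (hp : p < sz A) (C : Set (FreeGroup X × Fin (sz A))), Prod.fst '' C = o • T v ∧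
        (∀ c ∈ C, ReflTransGen (St A S) (o, z0 A) c ∧ ReflTransGen (St A S) c (o * mk v, ⟨p, hp⟩)) ∧
        ∀ c ∈ C, ∀ d ∈ C, ReflTransGen (St A S) c d ∨ ReflTransGen (St A S) d c by
      rw [show T v = _ from e1, show mk v = _ from e2, smul_inv_smul, mul_inv_cancel_left] at this
      obtain ⟨hp, C, k⟩ := this le_rfl
      exact ⟨C, ⟨p, hp⟩, b, k⟩
    clear e e1 e2 b
    induction a with
    | base => exact fun _ => ⟨Nat.succ_pos _, {(o, z0 A)}, by simp [T_nil], by simp [← one_eq_mk, z0, ReflTransGen.refl], by simp [ReflTransGen.refl]⟩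
    | @step v p a p' _ b ih =>
      intro k
      rw [T_opt, Set.smul_set_insert] at k ⊢
      obtain ⟨hp, C, e1, e2, e3⟩ := ih ((Set.subset_insert ..).trans k)
      have s : St A S (o * mk v, ⟨p, hp⟩) (o * mk (v ++ a.toList), ⟨p', (lt_sz b).2⟩) :=
        ⟨k (.inr ⟨_, mk_T v, rfl⟩), k (.inl rfl), a, b, by rw [← mul_mk, mul_assoc]⟩
      obtain ⟨c, hc, -⟩ : o * 1 ∈ Prod.fst '' C := e1 ▸ ⟨_, one_T v, rfl⟩
      refine ⟨(lt_sz b).2, insert (o * mk (v ++ a.toList), ⟨p', (lt_sz b).2⟩) C, by rw [Set.image_insert_eq, e1]; rfl,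
        Set.forall_mem_insert.2 ⟨⟨((e2 c hc).1.trans (e2 c hc).2).tail s, .refl⟩, fun c x => ⟨(e2 c x).1, (e2 c x).2.tail s⟩⟩, ?_⟩
      rintro c (rfl | x) d (rfl | y)
      exacts [.inl .refl, .inr ((e2 d y).2.tail s), .inl ((e2 c x).2.tail s), e3 c x d y]
  · let P : Set (FreeGroup X) → FreeGroup X × Fin (sz A) → Prop := fun B z =>
      ∃ v, Acc A v z.2 ∧ o * mk v = z.1 ∧ B ⊆ o • T v ∧ o • T v ⊆ S
    have p1 : ∀ B z z', ReflTransGen (St A S) z z' → P B z → P B z' := fun B z z' h k => by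
      induction h with
      | refl => exact k
      | tail _ s ih =>
        obtain ⟨v, a, b, c, d⟩ := ih
        obtain ⟨-, s1, l, s2, s3⟩ := s
        have : o * mk (v ++ l.toList) = _ := (by rw [← mul_mk, ← mul_assoc, b] : _ = _ * mk l.toList).trans s3.symm
        refine ⟨_, a.step s2, this, ?_⟩
        rw [T_opt, Set.smul_set_insert, smul_eq_mul, this]
        exact ⟨c.trans (Set.subset_insert ..), Set.insert_subset s1 d⟩
    have fC : C.Finite := (fS.prod Set.finite_univ).subset fun x k => ⟨b ▸ ⟨x, k, rfl⟩, trivial⟩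
    suffices ∀ n, ∀ B ⊆ C, B.ncard = n → ∀ e, ReflTransGen (St A S) (o, z0 A) e → (∀ c ∈ B, ReflTransGen (St A S) c e) →
        P (Prod.fst '' B) e by
      obtain ⟨x, hx, -⟩ : o ∈ Prod.fst '' C := b ▸ ho
      obtain ⟨v, e1, e2, e3, e4⟩ := this _ C le_rfl rfl (h, f) ((c x hx).1.trans (c x hx).2) fun x k => (c x k).2
      exact ⟨v, f, e1, a, Prod.ext (eq_inv_smul_iff.2 (e4.antisymm (b ▸ e3))) (eq_inv_mul_iff_mul_eq.2 e2)⟩
    intro n
    induction n using Nat.strong_induction_on with | _ n ih => ?_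
    rintro B hB rfl e e1 e2
    obtain rfl | k := B.eq_empty_or_nonempty
    · exact p1 _ _ _ e1 ⟨[], .base, mul_one o, by simp, by simpa [T_nil] using ho⟩
    obtain ⟨x, hx, k⟩ := top (fC.subset hB) k fun x i y j => d x (hB i) y (hB j)
    obtain ⟨v, i1, i2, i3, i4⟩ := ih _ (Set.ncard_sdiff_singleton_lt_of_mem hx (fC.subset hB)) (B \ {x}) (Set.sdiff_subset.trans hB) rfl
      x (c x (hB hx)).1 fun y j => k y j.1
    refine p1 _ _ _ (e2 x hx) ⟨v, i1, i2, ?_, i4⟩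
    rintro _ ⟨y, j, rfl⟩
    by_cases l : y = x
    · exact ⟨_, mk_T v, l ▸ i2⟩
    · exact i3 ⟨y, ⟨j, l⟩, rfl⟩

def lf (S : Set (FreeGroup X)) (y : List (X × Bool)) : Prop := IsReduced y ∧ mk y ∈ S

def ClL (A : Au X) (t : List (X × Bool) → Prop × Set (Fin (sz A))) : Prop :=
  ∀ (a : Option (X × Bool)) (p p' : Fin (sz A)), (p.1, a, p'.1) ∈ A.1 → (t []).1 →
    ((t a.toList).1 → p ∈ (t []).2 → p' ∈ (t a.toList).2) ∧
    ((t (invRev a.toList)).1 → p ∈ (t (invRev a.toList)).2 → p' ∈ (t []).2)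

def Cl (A : Au X) (t : List (X × Bool) → Prop × Set (Fin (sz A))) : Prop := ∀ x, ClL A (sub t x)

theorem ur_Cl [Finite X] : UR sz (Cl (X := X)) := ur_loc ClL fun A t t' h k a p p' m => by
  rw [← h [] (by simp), ← h a.toList (by cases a <;> simp), ← h (invRev a.toList) (by cases a <;> simp)]
  exact k a p p' m

def Ph (A : Au X) (t : List (X × Bool) → Prop × Prop × Prop) : Prop :=
  ∃ C : _ → Set (Fin (sz A)), Fs C ∧ ∃ F : _ → Set (Fin (sz A)), Fs F ∧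
    (∀ x, ((t x).1 ↔ (C x).Nonempty) ∧ ((t x).2.2 → ∃ f : Fin (sz A), f.1 ∈ A.2 ∧ F x = {f})) ∧
    ∀ Z : _ → Set (Fin (sz A)), Fs Z → Cl A (fun x => ((t x).1, Z x)) →
      (((∀ x, (t x).2.1 → z0 A ∈ Z x) → ∀ x, C x ⊆ Z x) ∧ (¬ (∀ x, Disjoint (C x) (Z x)) → ∀ x, (t x).2.2 → F x ⊆ Z x)) ∧
      ∀ W : _ → Set (Fin (sz A)), Fs W → Cl A (fun x => ((t x).1, W x)) → (∀ x, C x ∩ Z x ⊆ W x) ∨ ∀ x, C x ∩ W x ⊆ Z x

abbrev SQ (A : Au X) := Set (Fin (sz A))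
abbrev G2 (A : Au X) := ((Prop × Prop × Prop) × SQ A) × SQ A

theorem ur_Ph [Finite X] : UR sz (Ph (X := X)) :=
  (UR.and (ur_pt (Γ := G2) fun A x => (x.1.1.1 ↔ x.1.2.Nonempty) ∧ (x.1.1.2.2 → ∃ f : Fin (sz A), f.1 ∈ A.2 ∧ x.2 = {f}))
    ((ur_Cl.map (Δ := fun A => G2 A × SQ A) fun _ x => (x.1.1.1.1, x.2)).imp (UR.and (UR.and
      ((ur_pt (Γ := fun A => G2 A × SQ A) fun A x => x.1.1.1.2.1 → z0 A ∈ x.2).imp
        (ur_pt (Γ := fun A => G2 A × SQ A) fun _ x => x.1.1.2 ⊆ x.2))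
      ((ur_pt (Γ := fun A => G2 A × SQ A) fun _ x => Disjoint x.1.1.2 x.2).not.imp
        (ur_pt (Γ := fun A => G2 A × SQ A) fun _ x => x.1.1.1.2.2 → x.1.2 ⊆ x.2)))
      ((ur_Cl.map (Δ := fun A => (G2 A × SQ A) × SQ A) fun _ x => (x.1.1.1.1.1, x.2)).imp
        ((ur_pt (Γ := fun A => (G2 A × SQ A) × SQ A) fun _ x => x.1.1.1.2 ∩ x.1.2 ⊆ x.2).or
          (ur_pt (Γ := fun A => (G2 A × SQ A) × SQ A) fun _ x => x.1.1.1.2 ∩ x.2 ⊆ x.1.2))).all)).all).ex.ex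

variable [DecidableEq X]

theorem lf_word {S : Set (FreeGroup X)} {g} : lf S g.toWord ↔ g ∈ S := by simp [lf, isReduced_toWord, mk_toWord]
theorem lf.eq {S : Set (FreeGroup X)} {y} (h : lf S y) : (mk y).toWord = y := h.1.reduce_eq
theorem lf_one {g : FreeGroup X} {y} : lf {g} y ↔ y = g.toWord := ⟨fun h => h.2 ▸ h.eq.symm, fun h => h ▸ lf_word.2 rfl⟩
theorem lf_fin {S : Set (FreeGroup X)} (h : S.Finite) : {y | lf S y}.Finite :=
  (h.image toWord).subset fun _ k => ⟨_, k.2, k.eq⟩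

theorem Cl_iff {A : Au X} {S} {Z : _ → SQ A} : Cl A (fun x => (lf S x, Z x)) ↔ ∀ z z', St A S z z' → z.2 ∈ Z z.1.toWord → z'.2 ∈ Z z'.1.toWord := by
  refine ⟨fun h ⟨g, p⟩ ⟨g', p'⟩ ⟨a, b, l, c, d⟩ k => ?_, fun h x a p p' m k => ?_⟩
  · have : g'.toWord = g.toWord ++ l.toList ∨ g.toWord = g'.toWord ++ invRev l.toList := by
      cases l
      · exact .inl (by simpa [← one_eq_mk] using d)
      · exact mv isReduced_toWord isReduced_toWord (by rw [mk_toWord, mk_toWord]; exact d)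
    obtain e | e := this
    · simpa [sub, ← e] using (h g.toWord l p p' c (by simpa [sub] using lf_word.2 a)).1 (by simpa [sub, ← e] using lf_word.2 b)
        (by simpa [sub] using k)
    · simpa [sub] using (h g'.toWord l p p' c (by simpa [sub] using lf_word.2 b)).2 (by simpa [sub, ← e] using lf_word.2 a)
        (by simpa [sub, ← e] using k)
  · simp only [sub, List.append_nil] at k ⊢
    refine ⟨fun l => ?_, fun l => ?_⟩
    · simpa only [k.eq, l.eq] using h (mk x, p) (mk (x ++ a.toList), p') ⟨k.2, l.2, a, m, mul_mk.symm⟩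
    · simpa only [k.eq, l.eq] using h (mk (x ++ invRev a.toList), p) (mk x, p') ⟨l.2, k.2, a, m, by simp [← mul_mk, ← inv_mk]⟩

theorem reach {A : Au X} {S} (f : S.Finite) {z} (h : z.1 ∈ S) : ∃ Z, Fs Z ∧ Cl A (fun x => (lf S x, Z x)) ∧
    ∀ z', z'.2 ∈ Z z'.1.toWord ↔ ReflTransGen (St A S) z z' := by
  have : ∀ z', ReflTransGen (St A S) z z' → z'.1 ∈ S := fun z' k => by
    cases k
    exacts [h, ‹St _ _ _ _›.2.1]
  have e : ∀ z' : _ × Fin (sz A), z'.2 ∈ {p | lf S z'.1.toWord ∧ ReflTransGen (St A S) z (mk z'.1.toWord, p)} ↔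
      ReflTransGen (St A S) z z' := fun z' => by simpa [lf_word, mk_toWord] using this z'
  refine ⟨fun y => {p | lf S y ∧ ReflTransGen (St A S) z (mk y, p)}, (lf_fin f).subset fun y k => ?_,
    Cl_iff.2 fun a b s k => (e b).2 (((e a).1 k).tail s), e⟩
  obtain ⟨p, k⟩ := Set.nonempty_iff_ne_empty.2 k
  exact k.1

theorem Cl.reach {A : Au X} {S} {Z : _ → SQ A} (h : Cl A (fun x => (lf S x, Z x))) {z z'} (k : ReflTransGen (St A S) z z') (m : z.2 ∈ Z z.1.toWord) :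
    z'.2 ∈ Z z'.1.toWord := by
  induction k with
  | refl => exact m
  | tail _ s ih => exact Cl_iff.1 h _ _ s ih

theorem Ph_iff {A : Au X} {S : Set (FreeGroup X)} (fS : S.Finite) {o h} (ho : o ∈ S) :
    Ph A (fun y => (lf S y, lf {o} y, lf {h} y)) ↔ K A (o⁻¹ • S, o⁻¹ * h) := by
  rw [K_iff fS ho]
  refine ⟨fun ⟨C, _, F, _, a, b⟩ => ?_, fun ⟨C, f, a, b, c, d⟩ => ?_⟩
  · obtain ⟨f, f1, f2⟩ := (a h.toWord).2 (lf_one.2 rfl)
    have m : ∀ z : _ × Fin (sz A), z.2 ∈ C z.1.toWord → z.1 ∈ S := fun z k => lf_word.1 ((a _).1.2 ⟨_, k⟩)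
    refine ⟨{z | z.2 ∈ C z.1.toWord}, f, f1, Set.Subset.antisymm (by rintro _ ⟨z, k, rfl⟩; exact m z k) fun g k => ?_,
      fun c k => ⟨?_, ?_⟩, fun c k d l => ?_⟩
    · obtain ⟨p, k⟩ := (a _).1.1 (lf_word.2 k)
      exact ⟨(g, p), k, rfl⟩
    · obtain ⟨Z, z1, z2, z3⟩ := reach (A := A) fS (z := (o, z0 A)) ho
      exact (z3 c).1 ((b Z z1 z2).1.1 (fun x e => lf_one.1 e ▸ (z3 (o, _)).2 .refl) _ k)
    · obtain ⟨Z, z1, z2, z3⟩ := reach fS (m c k)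
      exact (z3 (h, f)).1 ((b Z z1 z2).1.2 (fun e => Set.disjoint_left.1 (e _) k ((z3 c).2 .refl)) _ (lf_one.2 rfl) (f2 ▸ rfl))
    · obtain ⟨Z, z1, z2, z3⟩ := reach fS (m c k)
      obtain ⟨W, w1, w2, w3⟩ := reach fS (m d l)
      exact ((b Z z1 z2).2 W w1 w2).symm.imp (fun e => (z3 d).1 (e _ ⟨l, (w3 d).2 .refl⟩)) fun e => (w3 c).1 (e _ ⟨k, (z3 c).2 .refl⟩)
  · have m : ∀ {y p}, p ∈ {p | lf S y ∧ (mk y, p) ∈ C} → ∀ Z : _ → Set (Fin (sz A)), p ∈ Z y ↔ (mk y, p).2 ∈ Z (mk y, p).1.toWord :=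
      fun k Z => by rw [k.1.eq]
    refine ⟨fun y => {p | lf S y ∧ (mk y, p) ∈ C}, (lf_fin fS).subset fun y k => ?_, fun y => {p | lf {h} y ∧ p = f},
      (lf_fin (Set.finite_singleton h)).subset fun y k => ?_, fun x => ⟨⟨fun k => ?_, fun ⟨_, k⟩ => k.1⟩, fun k => ⟨f, a, by simp_all⟩⟩,
      fun Z _ z => ⟨⟨fun k x p l => (m l Z).2 (Cl.reach z (c _ l.2).1 (k _ (lf_one.2 rfl))), fun k x l p e => ?_⟩, fun W _ w => ?_⟩⟩
    · obtain ⟨p, k⟩ := Set.nonempty_iff_ne_empty.2 k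
      exact k.1
    · obtain ⟨p, k⟩ := Set.nonempty_iff_ne_empty.2 k
      exact k.1
    · obtain ⟨⟨g, p⟩, l, e⟩ : mk x ∈ Prod.fst '' C := b ▸ k.2
      exact ⟨p, k, e ▸ l⟩
    · simp only [not_forall, Set.not_disjoint_iff] at k
      obtain ⟨y, q, k, n⟩ := k
      exact e.2 ▸ lf_one.1 l ▸ Cl.reach z (c _ k.2).2 ((m k Z).1 n)
    · by_contra k
      simp only [not_or, not_forall, Set.not_subset] at k
      obtain ⟨⟨x, p, ⟨k1, k2⟩, k3⟩, y, q, ⟨k4, k5⟩, k6⟩ := k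
      exact (d _ k1.2 _ k4.2).elim (fun e => k6 ((m k4 Z).2 (Cl.reach z e ((m k1 Z).1 k2)))) fun e => k3 ((m k1 W).2 (Cl.reach w e ((m k4 W).1 k5)))

end Pool.Agent.H.MP_5c1719_al
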