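import Mathlib
import Pool.Agent.H.MP_5c1719_al.A

namespace Pool.Agent.H.MP_5c1719_al

open FreeGroup hiding map_mul map_one map_inv
open Pool.Agent.Lib.TA Pool.Agent.Lib.Munn
open scoped Pointwise

variable {X : Type}

def enc (w y : List (X × Bool)) : Prop × Prop := (lf (T w) y, lf {mk w} y)

def VL (t : List (X × Bool) → Prop × Prop) : Prop :=
  (∀ a, (t [a]).1 → (t []).1) ∧ (∀ a b, (t [a, b]).1 → a.1 = b.1 → a.2 = b.2) ∧ ((t []).2 → (t []).1)

def V (t : List (X × Bool) → Prop × Prop) : Prop := (t []).1 ∧ (∀ x, VL (sub t x)) ∧ ¬ (∀ x, ¬ (t x).2) ∧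
  ∀ Z : _ → Prop, Fs Z → (∀ x, (t x).2 → Z x) ∨ ∀ x, (t x).2 → ¬ Z x

theorem ur_V [Finite X] : UR sz fun _ : Au X => V (X := X) :=
  (ur_root (Γ := fun _ => Prop × Prop) fun _ x => x.1).and ((ur_loc (Γ := fun _ => Prop × Prop) (fun _ => VL) fun _ t t' h k => by
    simp only [VL] at k ⊢
    rw [← h [] (by simp)]
    exact ⟨fun a => h [a] (by simp) ▸ k.1 a, fun a b => h [a, b] (by simp) ▸ k.2.1 a b, k.2.2⟩).and
    ((ur_pt (Γ := fun _ => Prop × Prop) fun _ x => ¬ x.2).not.and ((ur_pt (Γ := fun _ => (Prop × Prop) × Prop) fun _ x => x.1.2 → x.2).or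
      (ur_pt (Γ := fun _ => (Prop × Prop) × Prop) fun _ x => x.1.2 → ¬ x.2)).all))

def ov (x y : Prop × Prop) : Prop × Prop × Prop := (x.1 ∨ y.1, x.2, y.2)

def Dif (A : Au X) (t : List (X × Bool) → ((Prop × Prop) × Prop × Prop) × Prop × Prop) : Prop :=
  V (fun x => (t x).2) ∧ ¬ (Ph A (fun x => ov (t x).1.1 (t x).2) ↔ Ph A fun x => ov (t x).1.2 (t x).2)

theorem ur_Dif [Finite X] : UR sz (Dif (X := X)) :=
  (ur_V.map (Δ := fun _ => ((Prop × Prop) × Prop × Prop) × Prop × Prop) fun _ x => x.2).and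
    ((ur_Ph.map (Δ := fun _ => ((Prop × Prop) × Prop × Prop) × Prop × Prop) fun _ x => ov x.1.1 x.2).iff
      (ur_Ph.map (Δ := fun _ => ((Prop × Prop) × Prop × Prop) × Prop × Prop) fun _ x => ov x.1.2 x.2)).not

def Ps (A : Au X) (t : List (X × Bool) → Unit × Prop) : Prop := ∀ x, Fs x → V x → ∃ y, Fs y ∧ V y ∧ (∀ v, (y v).1 → (t v).2) ∧
  ¬ ∃ z, Fs z ∧ Dif A (pr (pr x y) z)

theorem ur_Ps [Finite X] : UR sz (Ps (X := X)) :=
  ((ur_V.map (Δ := fun _ => (Unit × Prop) × Prop × Prop) fun _ x => x.2).imp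
    ((ur_V.map (Δ := fun _ => ((Unit × Prop) × Prop × Prop) × Prop × Prop) fun _ x => x.2).and
      ((ur_pt (Γ := fun _ => ((Unit × Prop) × Prop × Prop) × Prop × Prop) fun _ x => x.2.1 → x.1.1.2).and
        (ur_Dif.ex.not.map fun _ x => (x.1.2, x.2)))).ex).all

def Eqv (A : Au X) (u v : List (X × Bool)) : Prop := ∀ w, K A (mu (u ++ w)) ↔ K A (mu (v ++ w))

variable [DecidableEq X]

theorem fs_enc (w : List (X × Bool)) : Fs (enc w) := (lf_fin (T_fin w)).subset fun y h => by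
  by_contra k
  exact h (Prod.ext (eq_false k) (eq_false fun e => k ⟨e.1, e.2 ▸ mk_T w⟩))

theorem ht_enc {w : List (X × Bool)} {k} (h : w.length < k) : Ht (enc w) k := fun y l => by
  have : ¬ lf (T w) y := fun e => by
    have := T_len e.2
    rw [e.eq] at this
    omega
  exact Prod.ext (eq_false this) (eq_false fun e => this ⟨e.1, e.2 ▸ mk_T w⟩)

theorem V_enc (w : List (X × Bool)) : V (enc w) := by
  refine ⟨⟨.nil, one_T w⟩, fun x => ⟨fun a h => ?_, fun a b h => ?_, fun h => ⟨h.1, h.2 ▸ mk_T w⟩⟩, fun h => h _ (lf_one.2 rfl),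
    fun Z _ => (em (Z (mk w).toWord)).imp (fun h x e => lf_one.1 e ▸ h) fun h x e => lf_one.1 e ▸ h⟩
  · simpa [sub, enc, lf] using And.intro (show FreeGroup.IsReduced x from List.IsChain.left_of_append h.1) (T_pre h.1 h.2)
  · simpa [FreeGroup.IsReduced] using List.IsChain.right_of_append h.1

theorem V.enc {t : List (X × Bool) → Prop × Prop} (f : Fs t) (h : V t) : ∃ w, t = enc w := by
  obtain ⟨h0, h1, h2, h3⟩ := h
  simp only [not_forall, not_not] at h2
  obtain ⟨x, h2⟩ := h2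
  have h3 : ∀ y, (t y).2 → y = x := (h3 (· = x) (by simp [Fs])).resolve_right fun h => h x h2 rfl
  have pre : ∀ y z, (t (y ++ z)).1 → (t y).1 := fun y z => by
    induction z using List.reverseRecOn with
    | nil => simp
    | append_singleton z a ih => exact fun h => ih (by simpa [sub] using (h1 (y ++ z)).1 a (by simpa [sub] using h))
  have red : ∀ y, (t y).1 → IsReduced y := fun y h => List.isChain_iff_forall_rel_of_append_cons_cons.2 fun a b u v e =>
    (h1 u).2.1 a b (pre _ v (by simpa [← e] using h))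
  have tt : ∀ y, (t y).1 → ∀ g ∈ T y, (t g.toWord).1 := by
    rintro y h _ ⟨k, rfl⟩
    have := pre (y.take k) (y.drop k) (by simpa using h)
    rwa [toWord_mk, (red _ this).reduce_eq]
  have hx : (t x).1 := by simpa [sub] using (h1 x).2.2 (by simpa [sub] using h2)
  have : ∀ l : List (List (X × Bool)), (∀ y ∈ l, (t y).1) → ∃ w, mk w = mk x ∧ (∀ g ∈ T w, (t g.toWord).1) ∧ ∀ y ∈ l, mk y ∈ T w := fun l => by
    induction l with
    | nil => exact fun _ => ⟨x, rfl, tt x hx, by simp⟩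
    | cons y l ih =>
      intro h
      obtain ⟨w, a, b, c⟩ := ih fun z k => h z (.tail _ k)
      have : T (y ++ invRev y ++ w) = T y ∪ T w := by simp [T_app, T_inv, ← inv_mk, Set.smul_set_union]
      exact ⟨y ++ invRev y ++ w, by simp [← mul_mk, ← inv_mk, a], this ▸ fun g k => k.elim (tt y (h y (.head _)) g) (b g),
        this ▸ List.forall_mem_cons.2 ⟨.inl (mk_T y), fun z k => .inr (c z k)⟩⟩
  have f : {y | (t y).1}.Finite := f.subset fun y h e => by simp [e] at h
  obtain ⟨w, a, b, c⟩ := this f.toFinset.toList (by simp)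
  refine ⟨w, funext fun y => Prod.ext (propext ⟨fun h => ⟨red y h, c y (by simpa using h)⟩, fun h => h.eq ▸ b _ h.2⟩)
    (propext ⟨fun h => h3 y h ▸ ⟨red x hx, a.symm⟩, fun h => ?_⟩)⟩
  rwa [red_eq h.1 (red x hx) (h.2.trans a)]

theorem Ph_enc (A : Au X) (u w) : Ph A (fun x => ov (enc (invRev u) x) (enc w x)) ↔ K A (mu (u ++ w)) := by
  have := Ph_iff (A := A) ((T_fin (invRev u)).union (T_fin w)) (o := mk (invRev u)) (h := mk w) (.inl (mk_T _))
  convert this using 2
  · simp [ov, enc, lf, and_or_left]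
  · simp [mu, T_app, T_inv, ← mul_mk, ← inv_mk, Set.smul_set_union]

theorem Dif_enc (A : Au X) (u v w) : Dif A (pr (pr (enc (invRev u)) (enc (invRev v))) (enc w)) ↔
    ¬ (K A (mu (u ++ w)) ↔ K A (mu (v ++ w))) := by
  rw [← Ph_enc, ← Ph_enc]
  exact and_iff_right (V_enc w)

theorem Eqv_iff (A : Au X) (u v) : Eqv A u v ↔ ¬ ∃ z, Fs z ∧ Dif A (pr (pr (enc (invRev u)) (enc (invRev v))) z) := by
  refine ⟨fun h ⟨z, f, k⟩ => ?_, fun h w => by_contra fun k => h ⟨_, fs_enc w, (Dif_enc ..).2 k⟩⟩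
  obtain ⟨w, rfl⟩ := V.enc f k.1
  exact (Dif_enc ..).1 k (h w)

variable [Finite X]

theorem sh : ∃ c : ℕ → ℕ, Primrec c ∧ ∀ k (w : List (X × Bool)), (∀ y, k ≤ y.length → ¬ lf (T w) y) → ∃ v, mu v = mu w ∧ v.length ≤ c k := by
  have := pw.comp (.const 2) (pw.comp (.const (Nat.card (X × Bool) + 1)) .id)
  exact ⟨_, Primrec.nat_mul.comp this this, fun k w h => (mu_short (k := k) fun g e => (not_le.1 fun l => h _ l (lf_word.2 e)).le).imp
    fun v h => ⟨h.1, h.2.le⟩⟩

theorem F1 : ∃ b : ℕ → ℕ → ℕ, Primrec₂ b ∧ ∀ (A : Au X) u v k, u.length < k → v.length < k →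
    (∀ w, w.length ≤ b (sz A) k → (K A (mu (u ++ w)) ↔ K A (mu (v ++ w)))) → Eqv A u v := by
  obtain ⟨c, pc, hc⟩ := sh (X := X)
  obtain ⟨b, pb, hb⟩ := ur_Dif (X := X)
  refine ⟨fun m k => c (k + b m), pc.comp (Primrec.nat_add.comp .snd (pb.comp .fst)), fun A u v k hu hv h => (Eqv_iff ..).2 fun ⟨z, f, d⟩ => ?_⟩
  obtain ⟨z, f, e, d⟩ := (hb A).wit (k := k) (fun x l => Prod.ext (ht_enc (by simpa) x l) (ht_enc (by simpa) x l)) f d
  obtain ⟨w, rfl⟩ := V.enc f d.1
  obtain ⟨w', a, l⟩ := hc _ w fun y l => cast (congrArg Prod.fst (e y l))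
  exact (Dif_enc ..).1 d (mu_app rfl a ▸ mu_app rfl a ▸ h w' l)

theorem F2 : ∃ b : ℕ → ℕ, Primrec b ∧ ∀ A : Au X, (Set.range fun u => {w | K A (mu (u ++ w))}).Finite →
    ∀ u, ∃ v, v.length ≤ b (sz A) ∧ Eqv A u v := by
  obtain ⟨c, pc, hc⟩ := sh (X := X)
  obtain ⟨b, pb, hb⟩ := ur_Ps (X := X)
  refine ⟨_, pc.comp (Primrec.nat_add.comp (.const 0) pb), fun A h u => ?_⟩
  obtain ⟨U, -, fU, hU⟩ := h.exists_subset_finite_image_eq (s := Set.univ) (f := fun u => {w | K A (mu (u ++ w))}) (by simp)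
  obtain ⟨S, -, e, k⟩ := (hb A).wit (k := 0) (t := fun _ => ()) (u := fun y => ∃ v ∈ U, lf (T (invRev v)) y) (fun _ _ => rfl)
    ((fU.biUnion fun v _ => lf_fin (T_fin (invRev v))).subset fun y h => by simpa using h) fun x f k => by
      obtain ⟨u, rfl⟩ := V.enc f k
      obtain ⟨v, a, b⟩ : _ ∈ _ '' U := hU ▸ Set.mem_range_self (invRev u)
      exact ⟨_, fs_enc (invRev v), V_enc _, fun y h => ⟨v, a, h⟩, by simpa using (Eqv_iff A _ v).1 fun w => (Set.ext_iff.1 b w).symm⟩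
  obtain ⟨y, f, a, d, k⟩ := k _ (fs_enc (invRev u)) (V_enc _)
  obtain ⟨v, rfl⟩ := V.enc f a
  obtain ⟨w, a, l⟩ := hc _ v fun y l h => cast (e y l) (d y h)
  exact ⟨invRev w, by rwa [invRev_length], fun x => mu_app (mu_inv a) rfl ▸ (Eqv_iff A u (invRev v)).2 (by simpa using k) x⟩

def rn (A : Au X) (o : Option ℕ) (l : List (ℕ × Option (X × Bool) × ℕ)) : Option ℕ :=
  l.foldl (fun o t => if t ∈ A.1 ∧ o = some t.1 then some t.2.2 else none) o

def lab (l : List (ℕ × Option (X × Bool) × ℕ)) : List (X × Bool) := l.filterMap (·.2.1)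

omit [Finite X] in
theorem rn_acc {A : Au X} {l p} (h : rn A (some 0) l = some p) : Acc A (lab l) p ∧ (∀ t ∈ l, t ∈ A.1) ∧ p < sz A := by
  induction l using List.reverseRecOn generalizing p with
  | nil => cases h; exact ⟨.base, by simp, Nat.succ_pos _⟩
  | append_singleton l t ih =>
    simp only [rn, List.foldl_append, List.foldl_cons, List.foldl_nil, Option.ite_none_right_eq_some, Option.some.injEq] at h
    obtain ⟨⟨a, b⟩, rfl⟩ := h
    refine ⟨?_, by simpa [or_imp, forall_and, a] using (ih b).2.1, (lt_sz a).2⟩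
    convert (ih b).1.step a
    obtain ⟨_, _ | _, _⟩ := t <;> simp [lab]

omit [Finite X] in
theorem K_rn {A : Au X} {m} : K A m ↔ ∃ l p, rn A (some 0) l = some p ∧ p ∈ A.2 ∧ mu (lab l) = m := by
  refine ⟨fun ⟨v, p, a, b⟩ => ?_, fun ⟨l, p, a, b⟩ => ⟨_, p, (rn_acc a).1, b⟩⟩
  suffices ∃ l, rn A (some 0) l = some p ∧ lab l = v from this.elim fun l h => ⟨l, p, h.1, h.2 ▸ b⟩
  clear b
  induction a with
  | base => exact ⟨[], rfl, rfl⟩
  | @step v p a p' _ b ih =>
    obtain ⟨l, c, rfl⟩ := ih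
    exact ⟨l ++ [(p, a, p')], by simpa [rn, b] using c, by cases a <;> simp [lab]⟩

theorem pp_K [Primcodable X] : PrimrecPred fun p : Au X × List (X × Bool) => K p.1 (mu p.2) := by
  have c := pw.comp (.const 2) (pw.comp (.const (Nat.card (X × Bool) + 1)) (Primrec.list_length (α := X × Bool)))
  have s : Primrec (sz (X := X)) := Primrec.succ.comp ((Primrec.list_foldr (h := fun _ (p : (ℕ × Option (X × Bool) × ℕ) × ℕ) =>
    p.1.1 + p.1.2.2 + p.2) .fst (.const 0) ((Primrec.nat_add.comp (Primrec.nat_add.comp (Primrec.fst.comp .fst)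
      (Primrec.snd.comp (Primrec.snd.comp .fst))) .snd).comp .snd).to₂).of_eq fun A => by induction A.1 <;> simp [*])
  have r : Primrec₂ fun A : Au X => rn A (some 0) := Primrec.list_foldl (h := fun (A : Au X × _) (p : Option ℕ × ℕ × Option (X × Bool) × ℕ) =>
    if p.2 ∈ A.1.1 ∧ p.1 = some p.2.1 then some p.2.2.2 else none) .snd (.const _) (Primrec.ite
      ((pp_mem (Primrec.fst.comp (Primrec.fst.comp .fst)) (Primrec.snd.comp .snd)).and (Primrec.eq.comp (Primrec.fst.comp .snd)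
        (Primrec.option_some.comp (Primrec.fst.comp (Primrec.snd.comp .snd)))))
      (Primrec.option_some.comp (Primrec.snd.comp (Primrec.snd.comp (Primrec.snd.comp .snd)))) (.const _)).to₂
  refine (pp_ex (R := fun p l => (∃ q ∈ p.1.2, rn p.1 (some 0) l = some q) ∧ mu (lab l) = mu p.2) (pr_allW.comp (Primrec.fst.comp .fst)
    (Primrec.nat_mul.comp (pw.comp (.const 2) (s.comp .fst)) (Primrec.nat_mul.comp (c.comp .snd) (c.comp .snd))))
    ((pp_ex (Primrec.snd.comp (Primrec.fst.comp .fst)) (Primrec.eq.comp (r.comp (Primrec.fst.comp (Primrec.fst.comp .fst))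
      (Primrec.snd.comp .fst)) (Primrec.option_some.comp .snd))).and (pp_mu.comp ((Primrec.listFilterMap .snd
        (Primrec.fst.comp (Primrec.snd.comp .snd)).to₂).pair (Primrec.snd.comp .fst))))).of_eq fun ⟨A, w⟩ => ?_
  rw [K_rn]
  refine ⟨fun ⟨l, _, ⟨q, a, b⟩, c⟩ => ⟨l, q, b, a, c⟩, fun ⟨l, q, a, b, c⟩ => ?_⟩
  obtain ⟨l, ⟨a, c⟩, d⟩ := short (fun l => ({p : Fin (sz A) | rn A (some 0) l = some p}, code w.length (T (lab l)), code w.length {mk (lab l)}))
    (P := fun l => rn A (some 0) l = some q ∧ mu (lab l) = mu w) (l := l) (fun u m v ⟨a, b⟩ e => by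
      simp only [lab, List.filterMap_append, Prod.mk.injEq] at b e ⊢
      refine ⟨?_, (mu_code (fun g k => T_len (by rwa [← show T _ = T w from congrArg Prod.fst b])) e.2.1 e.2.2).symm.trans b⟩
      rw [rn, List.foldl_append] at a ⊢
      cases k : rn A (some 0) (u ++ m) with
      | none =>
        rw [show List.foldl _ _ (u ++ m) = _ from k] at a
        exfalso
        clear * - a
        induction v with
        | nil => cases a
        | cons t v ih => exact ih (by simpa using a)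
      | some p =>
        have : rn A (some 0) u = some p := (Set.ext_iff.1 e.1 ⟨p, (rn_acc k).2.2⟩).1 k
        rwa [show List.foldl _ _ u = _ from this, ← show List.foldl _ _ (u ++ m) = _ from k]) ⟨a, c⟩
  refine ⟨l, mem_allW.2 ⟨d.le.trans (le_of_eq ?_), (rn_acc a).2.1⟩, ⟨q, b, a⟩, c⟩
  rw [Nat.card_prod, Nat.card_prod, card_code, show Set (Fin (sz A)) = (Fin (sz A) → Prop) from rfl, Nat.card_fun]
  simp

theorem main [Primcodable X] : PrimrecPred fun A : Au X => (Set.range fun u => {w | K A (mu (u ++ w))}).Finite := by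
  obtain ⟨b1, p1, h1⟩ := F1 (X := X)
  obtain ⟨b2, p2, h2⟩ := F2 (X := X)
  obtain ⟨L, -, hL⟩ := Finite.exists_univ_list (X × Bool)
  have s : Primrec (sz (X := X)) := Primrec.succ.comp ((Primrec.list_foldr (h := fun _ (p : (ℕ × Option (X × Bool) × ℕ) × ℕ) =>
    p.1.1 + p.1.2.2 + p.2) .fst (.const 0) ((Primrec.nat_add.comp (Primrec.nat_add.comp (Primrec.fst.comp .fst)
      (Primrec.snd.comp (Primrec.snd.comp .fst))) .snd).comp .snd).to₂).of_eq fun A => by induction A.1 <;> simp [*])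
  have m : ∀ N y, y ∈ allW L N ↔ y.length ≤ N := by simp [mem_allW, hL]
  refine (pp_all (R := fun A u => ∃ v ∈ allW L (b2 (sz A)), ∀ w ∈ allW L (b1 (sz A) (b2 (sz A) + 2)), K A (mu (u ++ w)) ↔ K A (mu (v ++ w)))
    (pr_allW.comp (.const L) (Primrec.succ.comp (p2.comp s))) (pp_ex (pr_allW.comp (.const L) (p2.comp (s.comp .fst)))
      (pp_all (pr_allW.comp (.const L) ((p1.comp s (Primrec.nat_add.comp (p2.comp s) (.const 2))).comp (Primrec.fst.comp .fst))) ?_))).of_eq
    fun A => ⟨fun h => ?_, fun h u _ => (h2 A h u).imp fun v k => ⟨(m ..).2 k.1, fun w _ => k.2 w⟩⟩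
  · have a := pp_K.comp ((Primrec.fst.comp (Primrec.fst.comp (Primrec.fst (α := (Au X × List (X × Bool)) × List (X × Bool))))).pair
      (Primrec.list_append.comp (Primrec.snd.comp (Primrec.fst.comp .fst)) .snd))
    have b := pp_K.comp ((Primrec.fst.comp (Primrec.fst.comp (Primrec.fst (α := (Au X × List (X × Bool)) × List (X × Bool))))).pair
      (Primrec.list_append.comp (Primrec.snd.comp .fst) .snd))
    exact ((a.and b).or (a.not.and b.not)).of_eq fun _ => iff_iff_and_or_not_and_not.symm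
  have : ∀ u, ∃ v, v.length ≤ b2 (sz A) ∧ Eqv A u v := fun u => by
    induction u using List.reverseRecOn with
    | nil => exact ⟨[], Nat.zero_le _, fun _ => .rfl⟩
    | append_singleton u l ih =>
      obtain ⟨v, a, b⟩ := ih
      obtain ⟨x, c, d⟩ := h (v ++ [l]) ((m ..).2 (by simpa))
      rw [m] at c
      exact ⟨x, c, fun w => by
        rw [List.append_assoc, b, ← List.append_assoc, h1 A _ x _ (by simp; omega) (by omega) fun w k => d w ((m ..).2 k)]⟩
  exact ((List.finite_length_le _ (b2 (sz A))).image fun u => {w | K A (mu (u ++ w))}).subset (by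
    rintro _ ⟨u, rfl⟩
    exact (this u).imp fun v h => ⟨h.1, Set.ext fun w => (h.2 w).symm⟩)

end Pool.Agent.H.MP_5c1719_al
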